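import Pool.Agent.Run7.h2.FusM

/-!
Simple modules of dimension three over semisimple Hopf algebras.
-/

namespace Pool.Agent.Results.MP_13305e_al.DimThree

open Coalgebra Module

universe u v w x

/-- `β : W → V → V` is compatible with the action of `H`, which acts on pairs `(w, v)` diagonally
through the comultiplication: `h (β w v) = ∑ β (h₁ w) (h₂ v)`. -/
def IsDiagonal (k : Type u) [CommSemiring k] {H : Type v} [AddCommMonoid H] [Module k H]
    [Coalgebra k H] {W : Type x} [SMul H W] {V : Type w} [AddCommMonoid V] [SMul H V]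
    (β : W → V → V) : Prop :=
  ∀ (h : H) (w : W) (v : V),
    h • β w v = ∑ i ∈ (ℛ k h).index, β ((ℛ k h).left i • w) ((ℛ k h).right i • v)

/-- There is a nonzero `H`-linear map `W ⊗ V → V`, written as a `k`-bilinear map; that is,
`Hom_H(W, V ⊗ V*) ≠ 0`. -/
def MapsToEnd (k : Type u) [CommRing k] (H : Type v) [AddCommMonoid H] [Module k H] [Coalgebra k H]
    (W : Type x) [AddCommGroup W] [Module k W] [SMul H W]
    (V : Type w) [AddCommGroup V] [Module k V] [SMul H V] : Prop :=
  ∃ β : W →ₗ[k] V →ₗ[k] V, β ≠ 0 ∧ IsDiagonal k (H := H) (fun w v => β w v)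

/-- Let `H` be a semisimple Hopf algebra over an algebraically closed field of characteristic zero
and let `V` be a simple `H`-module of dimension three. Then either three divides the dimension of
`H`, or there is a simple `H`-module `W` of dimension eight (a minimal left ideal of `H`) with a
nonzero `H`-linear map `W ⊗ V → V`, so that `V ⊗ V* = k ⊕ W`. -/
theorem result (k : Type u) [Field k] [IsAlgClosed k] [CharZero k] (H : Type v) [Ring H]
    [HopfAlgebra k H] [FiniteDimensional k H] [IsSemisimpleRing H] (V : Type w) [AddCommGroup V]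
    [Module k V] [Module H V] [IsScalarTower k H V] [IsSimpleModule H V] (hV : finrank k V = 3) :
    3 ∣ finrank k H ∨
    ∃ W : Submodule H H, IsSimpleModule H W ∧ finrank k W = 8 ∧ MapsToEnd k H W V := by
  by_cases hn : 3 ∣ finrank k H
  · left; exact hn
  · right
    obtain ⟨W, h1, h2, β, h3, h4⟩ := Run7.h2.main_mod hV hn
    exact ⟨W, h1, h2, β, h3, h4⟩

end Pool.Agent.Results.MP_13305e_al.DimThree
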